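import Pool.Agent.Lib.MP_4d4569_co.R9b

set_option autoImplicit false

open Finset Filter MeasureTheory Pointwise

namespace E3W52

open E3R8 hiding cnt Lv Core lv_lin near_far norm_g chain

/-- a weak bound for all coefficients survives multiplication by small phases -/
theorem modul {Ω ι : Type} [MeasurableSpace Ω] (μ : Measure Ω) (Q : Set Ω) (A : Finset ι)
    (φ : ι → Ω → ℂ) {K : ℝ} (hK : 0 ≤ K)
    (h : ∀ (c : ι → ℂ) (b : ℝ), 0 < b → μ {y | y ∈ Q ∧ b ≤ ‖∑ a ∈ A, c a * φ a y‖}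
      ≤ ENNReal.ofReal (K * (∑ a ∈ A, ‖c a‖ ^ 2) ^ 3 / b ^ 6))
    (θ : ι → ℂ) (hθ : ∀ a ∈ A, ‖θ a‖ ≤ 1) (u : Ω → ℂ) (hu : ∀ y ∈ Q, ‖u y‖ ≤ 1)
    (c : ι → ℂ) (b : ℝ) (hb : 0 < b) :
    μ {y | y ∈ Q ∧ b ≤ ‖∑ a ∈ A, c a * (φ a y * Complex.exp (θ a * u y))‖}
      ≤ ENNReal.ofReal (2 * 8 ^ 6 * K * (∑ a ∈ A, ‖c a‖ ^ 2) ^ 3 / b ^ 6) := by
  have sub : {y | y ∈ Q ∧ b ≤ ‖∑ a ∈ A, c a * (φ a y * Complex.exp (θ a * u y))‖} ⊆
      ⋃ m : ℕ, {y | y ∈ Q ∧ b * 2 ^ m / 8 ≤ ‖∑ a ∈ A, c a * θ a ^ m * φ a y‖} := by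
    rintro y ⟨hy, hb'⟩
    by_contra hn
    simp only [Set.mem_iUnion, Set.mem_ofPred_eq, hy, true_and, not_exists, not_le] at hn
    have s1 : HasSum (fun m : ℕ => u y ^ m / (m.factorial : ℂ) * ∑ a ∈ A, c a * θ a ^ m * φ a y)
        (∑ a ∈ A, c a * (φ a y * Complex.exp (θ a * u y))) := by
      simp only [mul_sum]
      refine hasSum_sum fun a _ => ?_
      have := (NormedSpace.expSeries_div_hasSum_exp (θ a * u y)).mul_left (c a * φ a y)
      rw [← Complex.exp_eq_exp_ℂ, mul_assoc] at this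
      rwa [show (fun m : ℕ => u y ^ m / (m.factorial : ℂ) * (c a * θ a ^ m * φ a y))
        = fun m => c a * φ a y * ((θ a * u y) ^ m / m.factorial) from
        funext fun m => by rw [mul_pow]; ring]
    have s2 : HasSum (fun m : ℕ => b / 8 * ((2 : ℝ) ^ m / m.factorial)) (b / 8 * Real.exp 2) := by
      rw [Real.exp_eq_exp_ℝ]
      exact (NormedSpace.expSeries_div_hasSum_exp (2 : ℝ)).mul_left _
    have s3 := s1.norm_le_of_bounded s2 fun m => by
      have f0 : (0 : ℝ) < m.factorial := by exact_mod_cast m.factorial_pos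
      rw [norm_mul, norm_div, norm_pow, Complex.norm_natCast]
      have := mul_le_mul (div_le_div_of_nonneg_right (pow_le_one₀ (n := m) (norm_nonneg _)
        (hu y hy)) f0.le) (hn m).le (norm_nonneg _) (by positivity)
      exact this.trans (le_of_eq (by ring))
    have e2 : Real.exp 2 < 8 := by
      rw [show (2 : ℝ) = 1 + 1 by norm_num, Real.exp_add]
      nlinarith [Real.exp_one_lt_d9, Real.exp_pos 1]
    nlinarith
  set n := ∑ a ∈ A, ‖c a‖ ^ 2 with hn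
  have n0 : 0 ≤ n := sum_nonneg fun _ _ => sq_nonneg _
  refine (measure_mono sub).trans ((measure_iUnion_le _).trans ?_)
  have lev : ∀ m : ℕ, μ {y | y ∈ Q ∧ b * 2 ^ m / 8 ≤ ‖∑ a ∈ A, c a * θ a ^ m * φ a y‖}
      ≤ ENNReal.ofReal (8 ^ 6 * K * n ^ 3 / b ^ 6 * (1 / 2) ^ m) := by
    intro m
    refine (h (fun a => c a * θ a ^ m) _ (by positivity)).trans (ENNReal.ofReal_le_ofReal ?_)
    have h1 : ∑ a ∈ A, ‖c a * θ a ^ m‖ ^ 2 ≤ n := sum_le_sum fun a ha => by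
      rw [norm_mul, norm_pow]
      exact pow_le_pow_left₀ (by positivity) (mul_le_of_le_one_right (norm_nonneg _)
        (pow_le_one₀ (norm_nonneg _) (hθ a ha))) 2
    have h2 : (2 : ℝ) ^ m ≤ (2 ^ m) ^ 6 := le_self_pow₀ (one_le_pow₀ one_le_two) (by norm_num)
    calc K * (∑ a ∈ A, ‖c a * θ a ^ m‖ ^ 2) ^ 3 / (b * 2 ^ m / 8) ^ 6
        ≤ K * n ^ 3 / (b * 2 ^ m / 8) ^ 6 := by gcongr
      _ = 8 ^ 6 * K * n ^ 3 / b ^ 6 / (2 ^ m) ^ 6 := by field_simp
      _ ≤ 8 ^ 6 * K * n ^ 3 / b ^ 6 / 2 ^ m := by gcongr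
      _ = _ := by rw [one_div, inv_pow, div_eq_mul_inv]
  refine (ENNReal.tsum_le_tsum lev).trans ?_
  rw [← ENNReal.ofReal_tsum_of_nonneg (fun _ => by positivity)
    (summable_geometric_two.mul_left _), tsum_mul_left, tsum_geometric_two]
  exact le_of_eq (by congr 1; ring)

/-- a bound for the number of shifts into a set bounds its measure in a square -/
theorem shiftS {Ω : Type} [Fintype Ω] [Nonempty Ω] (S : Set (ℝ × ℝ)) (hS : MeasurableSet S)
    (u : Ω → ℝ × ℝ) {L R B : ℝ} (hu : ∀ g, u g ∈ Set.Icc 0 L ×ˢ Set.Icc 0 L)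
    (hB : ∀ x, ({g | x + u g ∈ S}.ncard : ℝ) ≤ B * Fintype.card Ω) (hL : 0 ≤ L) (hR : 0 ≤ R)
    (B0 : 0 ≤ B) :
    volume {x | x ∈ Set.Icc 0 R ×ˢ Set.Icc 0 R ∧ x ∈ S} ≤ ENNReal.ofReal (B * (L + R) ^ 2) := by
  classical
  set T : Set (ℝ × ℝ) := Set.Icc (-L) R ×ˢ Set.Icc (-L) R with hT
  have ms : ∀ g, MeasurableSet ((fun x => x + u g) ⁻¹' S) := fun g => measurable_add_const _ hS
  have h1 : ∀ g, volume {x | x ∈ Set.Icc 0 R ×ˢ Set.Icc 0 R ∧ x ∈ S}
      ≤ ∫⁻ x in T, ((fun x => x + u g) ⁻¹' S).indicator 1 x := by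
    intro g
    rw [lintegral_indicator_one (ms g), Measure.restrict_apply (ms g),
      ← measure_preimage_add_right volume (u g)]
    refine measure_mono fun x hx => ⟨hx.2, ?_⟩
    obtain ⟨⟨a1, a2⟩, a3, a4⟩ := hx.1
    obtain ⟨⟨b1, b2⟩, b3, b4⟩ := hu g
    simp only [Prod.fst_add, Prod.snd_add] at a1 a2 a3 a4
    exact ⟨⟨by linarith, by linarith⟩, by linarith, by linarith⟩
  have hv : volume T = ENNReal.ofReal ((L + R) ^ 2) := by
    rw [hT, Measure.volume_eq_prod, Measure.prod_prod, Real.volume_Icc,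
      ← ENNReal.ofReal_mul (by linarith)]
    congr 1; ring
  have hc : (Fintype.card Ω : ENNReal) ≠ 0 := by exact_mod_cast Fintype.card_ne_zero
  refine (ENNReal.mul_le_mul_iff_right hc (ENNReal.natCast_ne_top _)).1 ?_
  calc (Fintype.card Ω : ENNReal) * volume {x | x ∈ Set.Icc 0 R ×ˢ Set.Icc 0 R ∧ x ∈ S}
      = ∑ _g : Ω, volume {x | x ∈ Set.Icc 0 R ×ˢ Set.Icc 0 R ∧ x ∈ S} := by
        rw [sum_const, card_univ, nsmul_eq_mul]
    _ ≤ ∑ g, ∫⁻ x in T, ((fun x => x + u g) ⁻¹' S).indicator 1 x := sum_le_sum fun g _ => h1 g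
    _ = ∫⁻ x in T, ∑ g, ((fun x => x + u g) ⁻¹' S).indicator 1 x :=
        (lintegral_finsetSum _ fun g _ => measurable_one.indicator (ms g)).symm
    _ ≤ ∫⁻ _x in T, ENNReal.ofReal (B * Fintype.card Ω) := by
        refine lintegral_mono fun x => ?_
        refine le_trans (le_of_eq ?_) (ENNReal.ofReal_le_ofReal (hB x))
        simp only [Set.indicator_apply, Set.mem_preimage, Pi.one_apply]
        rw [sum_boole, ENNReal.ofReal_natCast, ← Set.ncard_coe_finset, coe_filter_univ]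
    _ = _ := by
        rw [setLIntegral_const, hv, ← ENNReal.ofReal_mul (by positivity),
          ← ENNReal.ofReal_natCast, ← ENNReal.ofReal_mul (by positivity)]
        congr 1; ring

/-- rounding a dilate keeps the points in convex position -/
theorem round_sup (A : Finset (ℝ × ℝ)) {L : ℝ}
    (h : ∀ a ∈ A, ∀ y ∈ convexHull ℝ ((A : Set (ℝ × ℝ)) \ {a}), 1 < ‖L • a - L • y‖) :
    Set.InjOn (fun a : ℝ × ℝ => (round (L * a.1), round (L * a.2))) A ∧
      SupZ (A.image fun a : ℝ × ℝ => (round (L * a.1), round (L * a.2))) := by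
  classical
  set ρ : ℝ × ℝ → ℝ × ℝ := fun a => (round (L * a.1), round (L * a.2)) with hρ
  have near : ∀ a, ‖ρ a - L • a‖ ≤ 1 / 2 := fun a => by
    rw [Prod.norm_def]
    exact max_le (by simpa [hρ, abs_sub_comm] using abs_sub_round (L * a.1))
      (by simpa [hρ, abs_sub_comm] using abs_sub_round (L * a.2))
  set C : ℝ × ℝ → Set (ℝ × ℝ) := fun a =>
    L • convexHull ℝ ((A : Set (ℝ × ℝ)) \ {a}) + Metric.closedBall 0 (1 / 2) with hC
  have c1 : ∀ a ∈ A, ρ a ∉ C a := by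
    rintro a ha ⟨_, ⟨y, hy, rfl⟩, w, hw, e⟩
    have := h a ha y hy
    rw [mem_closedBall_zero_iff] at hw
    have e2 : L • a - L • y = w - (ρ a - L • a) := by rw [← show L • y + w = ρ a from e]; abel
    rw [e2] at this
    linarith [norm_sub_le w (ρ a - L • a), near a]
  have c2 : ∀ a, ∀ b ∈ A, b ≠ a → ρ b ∈ C a := fun a b hb hba =>
    ⟨_, ⟨b, subset_convexHull ℝ _ ⟨hb, hba⟩, rfl⟩, ρ b - L • b,
      mem_closedBall_zero_iff.2 (near b), add_sub_cancel _ _⟩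
  have hs : Sup (A.image ρ) := sup_of_convex _ fun a' ha' hm => by
    obtain ⟨a, ha, rfl⟩ := mem_image.1 ha'
    refine c1 a ha (convexHull_min ?_ (((convex_convexHull ℝ _).smul L).add
      (convex_closedBall _ _)) hm)
    rintro b' ⟨hb', hne⟩
    obtain ⟨b, hb, rfl⟩ := mem_image.1 hb'
    exact c2 a b hb fun e => hne (by rw [e]; rfl)
  refine ⟨fun a ha b hb e => ?_, ?_⟩
  · by_contra hne
    have e' : ρ a = ρ b := by
      obtain ⟨e1, e2⟩ := Prod.mk.inj e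
      simp only [hρ, e1, e2]
    exact c1 b hb (e' ▸ c2 b a ha hne)
  · obtain ⟨η, hη, hc⟩ := E3R9.close _ hs
    have := (hc 1 one_pos round fun a' ha' => by
      obtain ⟨a, _, rfl⟩ := mem_image.1 ha'
      simpa [hρ] using hη).2
    rw [image_image] at this
    simpa [hρ, Function.comp_def] using this

theorem main : ∃ C : ℝ, ∀ (A : Finset (ℝ × ℝ)) (R : ℝ), 0 < R →
    (∀ a ∈ A, ∀ y ∈ convexHull ℝ ((A : Set (ℝ × ℝ)) \ {a}),
      1 ≤ R ^ 2 * ((a.1 - y.1) ^ 2 + (a.2 - y.2) ^ 2)) →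
    ∀ (c : ℝ × ℝ → ℂ) (b : ℝ), 0 < b →
      volume {x : ℝ × ℝ | x ∈ Set.Icc 0 R ×ˢ Set.Icc 0 R ∧ b ≤
        ‖∑ a ∈ A, c a * Complex.exp (2 * Real.pi * Complex.I * (a.1 * x.1 + a.2 * x.2 : ℝ))‖}
        ≤ ENNReal.ofReal (C * (∑ a ∈ A, ‖c a‖ ^ 2) ^ 3 * R ^ 2 / b ^ 6) := by
  classical
  obtain ⟨K, hK, hw⟩ := E3R9.weak
  refine ⟨2 * 8 ^ 6 * (2 * 8 ^ 6 * (25 * K)), fun A R hR hA => ?_⟩
  set L := 4 * R with hL
  have L0 : 0 < L := by positivity
  obtain ⟨hinj, hS⟩ := round_sup A (L := L) fun a ha y hy => by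
    have h1 := hA a ha y hy
    by_contra hn
    rw [not_lt, Prod.norm_def, max_le_iff] at hn
    simp only [Prod.fst_sub, Prod.snd_sub, Prod.smul_fst, Prod.smul_snd, smul_eq_mul,
      Real.norm_eq_abs, ← sq_le_one_iff_abs_le_one, hL] at hn
    nlinarith [hn.1, hn.2]
  set γ : ℝ × ℝ → ℤ × ℤ := fun a => (round (L * a.1), round (L * a.2)) with hγ
  obtain ⟨P, hP, hW⟩ := hw _ hS
  have P0 : (0 : ℝ) < P := by exact_mod_cast hP.out.pos
  set φ : ℝ × ℝ → ℝ × ℝ → ℂ := fun a x => Complex.exp (2 * Real.pi * Complex.I *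
    ((γ a).1 * (x.1 / L) + (γ a).2 * (x.2 / L) : ℝ)) with hφ
  have ne : ∀ a x, ‖φ a x‖ = 1 := fun a x => by
    rw [hφ, ← Complex.norm_exp_ofReal_mul_I
      (2 * Real.pi * ((γ a).1 * (x.1 / L) + (γ a).2 * (x.2 / L)))]
    simp only
    congr 2; push_cast; ring
  have vl : ∀ k : ZMod P, (0 : ℝ) ≤ k.val / P ∧ (k.val : ℝ) / P ≤ 1 := fun k =>
    ⟨by positivity, (div_le_one P0).2 (by exact_mod_cast k.val_lt.le)⟩
  have hl : ∀ a ∈ A, Function.invFunOn γ A (γ a) = a := fun a ha => hinj.leftInvOn_invFunOn ha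
  have base : ∀ (c : ℝ × ℝ → ℂ) (b : ℝ), 0 < b →
      volume {x | x ∈ Set.Icc 0 R ×ˢ Set.Icc 0 R ∧ b ≤ ‖∑ a ∈ A, c a * φ a x‖}
      ≤ ENNReal.ofReal (25 * K * R ^ 2 * (∑ a ∈ A, ‖c a‖ ^ 2) ^ 3 / b ^ 6) := by
    intro c b hb
    refine (shiftS (Ω := ZMod P × ZMod P) {x | b ≤ ‖∑ a ∈ A, c a * φ a x‖}
      (measurableSet_le measurable_const (Continuous.measurable (by simp only [hφ]; fun_prop)))
      (fun g => (L * (g.1.val / P), L * (g.2.val / P))) (L := L)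
      (B := K * (∑ a ∈ A, ‖c a‖ ^ 2) ^ 3 / b ^ 6) (fun g => ?_) (fun x => ?_) L0.le hR.le
      (by positivity)).trans (le_of_eq (by congr 1; rw [hL]; ring))
    · exact ⟨⟨mul_nonneg L0.le (vl _).1, mul_le_of_le_one_right L0.le (vl _).2⟩,
        mul_nonneg L0.le (vl _).1, mul_le_of_le_one_right L0.le (vl _).2⟩
    have h1 := hW (fun z => c (Function.invFunOn γ A z) * φ (Function.invFunOn γ A z) x) b hb
    have s1 : ∀ g : ZMod P × ZMod P, ∑ z ∈ A.image γ, c (Function.invFunOn γ A z) *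
        φ (Function.invFunOn γ A z) x * ch P z g
        = ∑ a ∈ A, c a * φ a (x + (L * (g.1.val / P), L * (g.2.val / P))) := fun g => by
      rw [sum_image hinj]
      refine sum_congr rfl fun a ha => ?_
      rw [hl a ha, ch, show ((γ a).1 : ZMod P) * g.1 + (γ a).2 * g.2
        = (((γ a).1 * g.1.val + (γ a).2 * g.2.val : ℤ) : ZMod P) by simp, ZMod.stdAddChar_coe,
        mul_assoc]
      simp only [hφ, ← Complex.exp_add, Prod.fst_add, Prod.snd_add, add_div,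
        mul_div_cancel_left₀ _ L0.ne']
      congr 2; push_cast; ring
    have s2 : ∑ z ∈ A.image γ, ‖c (Function.invFunOn γ A z) * φ (Function.invFunOn γ A z) x‖ ^ 2
        = ∑ a ∈ A, ‖c a‖ ^ 2 := by
      rw [sum_image hinj]; exact sum_congr rfl fun a ha => by rw [hl a ha, norm_mul, ne, mul_one]
    simp only [s1, s2] at h1
    have hcard : (Fintype.card (ZMod P × ZMod P) : ℝ) = (P : ℝ) ^ 2 := by simp [sq]
    rw [hcard, div_mul_eq_mul_div, le_div_iff₀ (by positivity), mul_comm]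
    exact h1
  have th : ∀ s : ℝ, ‖((2 * (s - round s) : ℝ) : ℂ)‖ ≤ 1 := fun s => by
    rw [Complex.norm_real, Real.norm_eq_abs, abs_mul, abs_two]
    linarith [abs_sub_round s]
  have uu : ∀ t ∈ Set.Icc 0 R, ‖Complex.I * ((Real.pi * (t / L) : ℝ) : ℂ)‖ ≤ 1 := fun t ht => by
    rw [norm_mul, Complex.norm_I, one_mul, Complex.norm_real, Real.norm_eq_abs,
      abs_of_nonneg (mul_nonneg Real.pi_pos.le (div_nonneg ht.1 L0.le)), ← mul_div_assoc,
      div_le_one L0, hL]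
    exact mul_le_mul Real.pi_le_four ht.2 ht.1 (by norm_num)
  have m1 := modul volume _ A φ (by positivity) base _ (fun a _ => th (L * a.1)) _
    fun x hx => uu x.1 hx.1
  have m2 := modul volume _ A _ (by positivity) m1 _ (fun a _ => th (L * a.2)) _
    fun x hx => uu x.2 hx.2
  intro c b hb
  convert m2 c b hb using 2
  · ext x
    refine and_congr_right fun _ => iff_of_eq ?_
    congr 2
    refine sum_congr rfl fun a _ => ?_
    have L1 : (L : ℂ) ≠ 0 := by exact_mod_cast L0.ne'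
    simp only [hφ, hγ, ← Complex.exp_add]
    congr 2; push_cast; field_simp; ring
  · ring

end E3W52
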